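import Pool.Agent.R557.PAAvg

set_option autoImplicit false

/-! Problem MP_68df70_lc, question Q1: the average `N`-adic complexity of the words of length `n`
over `{0, ..., N-1}` is `n / 2 + O(1)`, with an absolute implied constant. -/

namespace Pool.Agent.Results.MP_68df70_lc.AverageHalf

open Module Pool.Agent.R557.PA

/-- The integer `a_0 + a_1 N + ... + a_(m-1) N^(m-1)`: the residue modulo `N^m` of the `N`-adic
integer `a_0 + a_1 N + a_2 N^2 + ...` of the digit sequence `a`. -/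
def prefixValue (N : ℕ) (a : ℕ → Fin N) (m : ℕ) : ℤ :=
  ∑ i ∈ Finset.range m, ((a i : ℕ) : ℤ) * (N : ℤ) ^ i

/-- The `N`-adic integer of the digit sequence `a` is the rational number `f / g`, where `g > 0` and
`f`, `g` are coprime: `g * a = f` in `Z_N`, that is, modulo `N^m` for every `m`. -/
def IsFraction (N : ℕ) (a : ℕ → Fin N) (f g : ℤ) : Prop :=
  0 < g ∧ IsCoprime f g ∧ ∀ m : ℕ, (N : ℤ) ^ m ∣ g * prefixValue N a m - f

/-- The `N`-adic complexity of the word `w`: the minimum (infimum) of `log_N max(|f|, |g|)` over the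
infinite sequences `b` which extend `w` and whose `N`-adic integer is a rational number `f / g`
(in lowest terms). -/
noncomputable def wordComplexity {N n : ℕ} (w : Fin n → Fin N) : ℝ :=
  sInf {x : ℝ | ∃ (b : ℕ → Fin N) (f g : ℤ), (∀ i : Fin n, b i = w i) ∧ IsFraction N b f g ∧
    x = Real.logb N (max |f| |g| : ℤ)}

/-- The average of the `N`-adic complexity over the `N^n` words of length `n`. -/
noncomputable def averageComplexity (N n : ℕ) : ℝ :=
  (∑ w : Fin n → Fin N, wordComplexity w) / (N : ℝ) ^ n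

/-- the integers as a ring with a power basis -/
noncomputable def zs (N : ℕ) (hN : 2 ≤ N) : Setup ℤ where
  k := 0
  N := N
  hN := hN
  c := N
  hc := Int.natAbs_natCast N
  p := N
  b := Basis.singleton (Fin 1) ℤ
  hb := by
    intro i
    have : (i : ℕ) = 0 := by omega
    rw [this, Basis.singleton_apply, pow_zero]
  hp := by simp

lemma mem_Box_iff (N : ℕ) (hN : 2 ≤ N) (B : ℝ) (x : ℤ) :
    x ∈ (zs N hN).Box B ↔ |(x : ℝ)| ≤ B := by
  rw [Setup.mem_Box]
  have h : ∀ i : Fin ((zs N hN).k + 1), (zs N hN).co x i = x := by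
    intro i
    exact Basis.singleton_repr (Fin 1) ℤ x i
  constructor
  · intro h1
    have := h1 0
    rw [h] at this
    simpa using this
  · intro h1 i
    have hi : (i : ℕ) = 0 := by
      have := i.isLt
      have h2 : (zs N hN).k = 0 := rfl
      omega
    rw [h, hi, pow_zero, mul_one]
    exact h1

lemma val_eq {N n : ℕ} (hN : 2 ≤ N) (w : Fin n → Fin N) (b : ℕ → Fin N)
    (h : ∀ i : Fin n, b i = w i) : (zs N hN).val w = prefixValue N b n := by
  unfold Setup.val prefixValue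
  rw [← Fin.sum_univ_eq_sum_range (fun i => ((b i : ℕ) : ℤ) * (N : ℤ) ^ i) n]
  apply Finset.sum_congr rfl
  intro i _
  rw [h i]
  rfl

lemma coprime_N {N : ℕ} {a : ℕ → Fin N} {f g : ℤ} (h : IsFraction N a f g) :
    IsCoprime g (N : ℤ) := by
  obtain ⟨-, h1, h2⟩ := h
  obtain ⟨t, ht⟩ := h2 1
  rw [pow_one] at ht
  obtain ⟨u, v, huv⟩ := h1
  refine ⟨u * prefixValue N a 1 + v, -(u * t), ?_⟩
  have : f = g * prefixValue N a 1 - N * t := by linarith
  rw [this] at huv
  linarith

lemma one_le_max {f g : ℤ} (hg : 0 < g) : (1 : ℤ) ≤ max |f| |g| :=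
  le_trans (Int.one_le_abs hg.ne') (le_max_right _ _)

lemma bddBelow {N n : ℕ} (hN : 2 ≤ N) (w : Fin n → Fin N) :
    BddBelow {x : ℝ | ∃ (b : ℕ → Fin N) (f g : ℤ), (∀ i : Fin n, b i = w i) ∧ IsFraction N b f g ∧
    x = Real.logb N (max |f| |g| : ℤ)} := by
  refine ⟨0, ?_⟩
  rintro x ⟨b, f, g, -, h, rfl⟩
  apply Real.logb_nonneg (by exact_mod_cast (by omega : 1 < N))
  exact_mod_cast one_le_max h.1

/-- from a good pair to a reduced fraction -/
lemma good_fraction {N n : ℕ} (hN : 2 ≤ N) (w : Fin n → Fin N) (B : ℝ)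
    (h : (zs N hN).Good w B) : ∃ (b : ℕ → Fin N) (f g : ℤ), (∀ i : Fin n, b i = w i) ∧
      IsFraction N b f g ∧ |(f : ℝ)| ≤ B ∧ |(g : ℝ)| ≤ B := by
  obtain ⟨f, g, hf, hg, hcop, hdvd⟩ := h
  rw [mem_Box_iff] at hf hg
  change IsCoprime g (N : ℤ) at hcop
  have hg0 : g ≠ 0 := by
    rintro rfl
    rw [isCoprime_zero_left] at hcop
    have := Int.isUnit_iff.1 hcop
    omega
  -- lowest terms
  have hgcd : (Int.gcd f g : ℤ) ≠ 0 := by
    intro h
    have h1 : Int.gcd f g = 0 := by exact_mod_cast h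
    rw [Int.gcd_eq_zero_iff] at h1
    exact hg0 h1.2
  set h : ℤ := (Int.gcd f g : ℤ) with hh
  obtain ⟨f1, hf1⟩ : h ∣ f := Int.gcd_dvd_left f g
  obtain ⟨g1, hg1⟩ : h ∣ g := Int.gcd_dvd_right f g
  have hcop1 : IsCoprime f1 g1 := by
    have h1 : Int.gcd f g = f * Int.gcdA f g + g * Int.gcdB f g := Int.gcd_eq_gcd_ab f g
    rw [← hh] at h1
    refine ⟨Int.gcdA f g, Int.gcdB f g, ?_⟩
    apply mul_left_cancel₀ hgcd
    rw [mul_one]
    calc h * (Int.gcdA f g * f1 + Int.gcdB f g * g1) =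
        (h * f1) * Int.gcdA f g + (h * g1) * Int.gcdB f g := by ring
      _ = f * Int.gcdA f g + g * Int.gcdB f g := by rw [← hf1, ← hg1]
      _ = h := h1.symm
  have hg10 : g1 ≠ 0 := by
    rintro rfl
    rw [mul_zero] at hg1
    exact hg0 hg1
  have hcoph : IsCoprime ((zs N hN).p ^ n) h := by
    rw [hg1] at hcop
    exact (hcop.of_mul_left_left).symm.pow_left
  have hd1 : (zs N hN).p ^ n ∣ g1 * (zs N hN).val w - f1 := by
    apply hcoph.dvd_of_dvd_mul_left
    have h2 : h * (g1 * (zs N hN).val w - f1) = g * (zs N hN).val w - f := by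
      rw [mul_sub, ← mul_assoc, ← hg1, ← hf1]
    rw [h2]
    exact hdvd
  have hh1 : (1 : ℤ) ≤ |h| := Int.one_le_abs hgcd
  have hfB : |(f1 : ℝ)| ≤ B := by
    refine le_trans ?_ hf
    have h2 : |f1| ≤ |f| := by
      rw [hf1, abs_mul]
      exact le_mul_of_one_le_left (abs_nonneg _) hh1
    exact_mod_cast h2
  have hgB : |(g1 : ℝ)| ≤ B := by
    refine le_trans ?_ hg
    have h2 : |g1| ≤ |g| := by
      rw [hg1, abs_mul]
      exact le_mul_of_one_le_left (abs_nonneg _) hh1
    exact_mod_cast h2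
  have hcopg1 : IsCoprime g1 (zs N hN).p := by
    rw [hg1] at hcop
    exact hcop.of_mul_left_right
  rcases lt_or_gt_of_ne hg10 with hneg | hpos
  · have hd2 : (zs N hN).p ^ n ∣ (-g1) * (zs N hN).val w - (-f1) := by
      have h2 : (-g1) * (zs N hN).val w - (-f1) = -(g1 * (zs N hN).val w - f1) := by ring
      rw [h2]
      exact (dvd_neg).2 hd1
    obtain ⟨b, hb1, hb2⟩ := (zs N hN).extend w hcopg1.neg_left hd2
    refine ⟨b, -f1, -g1, hb1, ⟨by omega, hcop1.neg_neg, hb2⟩, ?_, ?_⟩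
    · push_cast; rw [abs_neg]; exact hfB
    · push_cast; rw [abs_neg]; exact hgB
  · obtain ⟨b, hb1, hb2⟩ := (zs N hN).extend w hcopg1 hd1
    exact ⟨b, f1, g1, hb1, ⟨hpos, hcop1, hb2⟩, hfB, hgB⟩

lemma nonempty {N n : ℕ} (hN : 2 ≤ N) (w : Fin n → Fin N) :
    {x : ℝ | ∃ (b : ℕ → Fin N) (f g : ℤ), (∀ i : Fin n, b i = w i) ∧ IsFraction N b f g ∧
    x = Real.logb N (max |f| |g| : ℤ)}.Nonempty := by
  have h : (zs N hN).Good w (max |((zs N hN).val w : ℝ)| 1) := by
    refine ⟨(zs N hN).val w, 1, ?_, ?_, isCoprime_one_left, ?_⟩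
    · rw [mem_Box_iff]; exact le_max_left _ _
    · rw [mem_Box_iff]; simp
    · rw [one_mul, sub_self]; exact dvd_zero _
  obtain ⟨b, f, g, h1, h2, -⟩ := good_fraction hN w _ h
  exact ⟨_, b, f, g, h1, h2, rfl⟩

/-- For all `N ≥ 2` and all `n`, the average `N`-adic complexity of the words of length `n` lies
between `n / 2 - 3` and `n / 2 + 17 / 2`. -/
theorem result (N : ℕ) (hN : 2 ≤ N) (n : ℕ) :
    (n : ℝ) / 2 - 3 ≤ averageComplexity N n ∧ averageComplexity N n ≤ (n : ℝ) / 2 + 17 / 2 := by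
  have hN1 : (1 : ℝ) < N := by exact_mod_cast (by omega : 1 < N)
  have H := (zs N hN).average (n := n) (fun w => wordComplexity w) 0 0 (le_refl _) ?_ ?_
  · obtain ⟨h1, h2⟩ := H
    have hk : (((zs N hN).k : ℕ) : ℝ) = 0 := by
      have : (zs N hN).k = 0 := rfl
      rw [this]; simp
    rw [hk] at h1 h2
    constructor
    · refine le_trans (le_of_eq ?_) h2
      ring
    · refine le_trans h1 (le_of_eq ?_)
      push_cast
      ring
  · intro w B hB hgood
    obtain ⟨b, f, g, h1, h2, h3, h4⟩ := good_fraction hN w B hgood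
    have hk : (((zs N hN).k : ℕ) : ℝ) = 0 := by
      have : (zs N hN).k = 0 := rfl
      rw [this]; simp
    rw [hk, zero_add, one_mul, add_zero]
    refine le_trans (csInf_le (bddBelow hN w) ⟨b, f, g, h1, h2, rfl⟩) ?_
    apply Real.logb_le_logb_of_le hN1
    · exact_mod_cast one_le_max h2.1
    · push_cast
      exact max_le h3 h4
  · intro w s hs
    obtain ⟨x, ⟨b, f, g, h1, h2, rfl⟩, hx⟩ := exists_lt_of_csInf_lt (nonempty hN w) hs
    have hk : (((zs N hN).k : ℕ) : ℝ) = 0 := by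
      have : (zs N hN).k = 0 := rfl
      rw [this]; simp
    rw [hk, zero_add, div_one]
    have hmax : (0 : ℝ) < ((max |f| |g| : ℤ) : ℝ) := by
      have := one_le_max (f := f) h2.1
      exact_mod_cast (by omega : 0 < max |f| |g|)
    rw [Real.logb_lt_iff_lt_rpow hN1 hmax] at hx
    push_cast at hx
    refine ⟨f, g, ?_, ?_, coprime_N h2, ?_⟩
    · rw [mem_Box_iff]
      exact le_trans (le_max_left _ _) hx.le
    · rw [mem_Box_iff]
      exact le_trans (le_max_right _ _) hx.le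
    · rw [val_eq hN w b h1]
      exact h2.2.2 n

end Pool.Agent.Results.MP_68df70_lc.AverageHalf
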